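import Pool.Agent.TH426.Kt.Main

set_option autoImplicit false

/-!
Towers with subcritical exponents, from the windows to the maximal function.
-/

open MeasureTheory Set ENNReal NNReal Metric Filter

namespace Pool.Agent.Y244.Tw

open Pool.Agent.H803R2.Kak Pool.Agent.H803R2.KakFTO Pool.Agent.H805R3.Kk
open Pool.Agent.TH426.Kt

/-- Towers of all exponents: from the windows to the maximal function. -/
theorem tower_mu {𝓑 : (d : ℕ) → ℝ → ℝ≥0 → Set (Vec d) → (Vec d → Vec d) → Prop}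
    (h𝓑 : RegBase 𝓑) {δ : ℝ} (hδ : 0 < δ) (hδ1 : δ < 1) {T : Set ℝ} (hT : MeasurableSet T)
    {c0 : ℕ → ℝ≥0∞} (hc0 : ∀ n, c0 n ≠ ∞) {Λ μ : ℝ≥0∞} (hΛ : Λ ≠ 0) (hΛt : Λ ≠ ∞)
    (hμ : μ ≠ 0) (hμt : μ ≠ ∞)
    (hb : ∀ k : ℤ, BaseBd 𝓑 (3 * δ) (win T k) 1 c0 Λ μ) {d : ℕ} {p : ℝ} {N : ℝ≥0}
    {B : Set (Vec d)} {b b' : Vec d → Vec d} (h : KTower 𝓑 d p N B b)
    (hbb : ∀ v ∈ B, ‖b' v - b v‖ ≤ δ) :
    LMb δ T 1 p (cb d ^ ((d : ℝ) + 1) * cc c0 (KK 1) d * N * Λ ^ d * μ ^ ((d : ℝ) + 1 - p)) B b' := by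
  rcases B.eq_empty_or_nonempty with hne | hne
  · rw [hne]
    intro f _ _
    simp
  obtain ⟨hp1, hp2⟩ := h.expo h𝓑 hne
  obtain ⟨hB, hB1, hbm⟩ := h.meas h𝓑
  have hw : ∀ k : ℤ, Wb (3 * δ) (win T k) 1 p
      (cc c0 (KK 1) d * N * Λ ^ d * μ ^ ((d : ℝ) + 1 - p)) B b := by
    intro k
    exact h.bound h𝓑 (r := 3 * δ) (by linarith) (J := win T k) one_pos hΛ hΛt hμ
      hμt hc0 (hb k)
  have key := LMb_of_Wb hδ hδ1 hT le_rfl (by linarith) hB hB1 hbm hbb hw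
  intro f hf hfT
  refine (key f hf hfT).trans (mul_le_mul_left ?_ _)
  have h1 : cb d ^ ((1 : ℝ) * p) ≤ cb d ^ ((d : ℝ) + 1) := by
    apply ENNReal.rpow_le_rpow_of_exponent_le
    · unfold cb
      have h2 : (1 : ℝ≥0∞) ≤ 16 ^ d := one_le_pow₀ (by norm_num)
      calc (1 : ℝ≥0∞) = 1 * 1 := by norm_num
        _ ≤ 52 * 16 ^ d := by
            gcongr
            norm_num
    · linarith
  calc cb d ^ ((1 : ℝ) * p) * (cc c0 (KK 1) d * N * Λ ^ d * μ ^ ((d : ℝ) + 1 - p))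
      ≤ cb d ^ ((d : ℝ) + 1) * (cc c0 (KK 1) d * N * Λ ^ d * μ ^ ((d : ℝ) + 1 - p)) := by gcongr
    _ = _ := by ring

/-- The loss `δ⁻¹`. -/
noncomputable def Mu (δ : ℝ) : ℝ≥0∞ := ENNReal.ofReal δ⁻¹

theorem one_le_Mu {δ : ℝ} (hδ : 0 < δ) (hδ1 : δ < 1) : 1 ≤ Mu δ := by
  unfold Mu
  rw [ENNReal.one_le_ofReal]
  exact (one_le_inv₀ hδ).2 hδ1.le

theorem Mu_rpow {δ : ℝ} (hδ : 0 < δ) {s : ℝ} : Mu δ ^ s = ENNReal.ofReal (δ ^ (-s)) := by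
  unfold Mu
  rw [ENNReal.ofReal_rpow_of_pos (by positivity), Real.inv_rpow hδ.le, Real.rpow_neg hδ.le]

end Pool.Agent.Y244.Tw
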